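import Pool.Agent.Helper12.XG.St2

/-!
# Project XG, module GAP
-/

set_option autoImplicit false

namespace Pool.Agent.Helper32.XG

open Finset Polynomial Pool.Agent.Helper12.XG Pool.Agent.Helper14.GS

private theorem sim_mono {κ κ' : ℝ} {y : ℕ} (h : κ ≤ κ') (hs : Sim κ y) : Sim κ' y := by
  obtain ⟨θ₀, h1, h2⟩ := hs
  refine ⟨θ₀, h1, fun θ hθ N => ?_⟩
  obtain ⟨q, hq, hqy, hle⟩ := h2 θ hθ N
  refine ⟨q, hq, hqy, le_trans ?_ hle⟩
  exact Real.rpow_le_rpow_of_exponent_le (h1.trans hθ) (neg_le_neg h)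

theorem hGAP (h1 : StSIM) (h2 : StGPB) : Pool.Agent.Helper12.XG.StGAP := by
  intro r
  obtain ⟨y₀, h⟩ := h1 (r + 1)
  refine ⟨max y₀ (⌈Real.exp 32⌉₊ + 3), fun y hy => ?_⟩
  have hy0 : y₀ ≤ y := (le_max_left _ _).trans hy
  have hy1 : ⌈Real.exp 32⌉₊ + 3 ≤ y := (le_max_right _ _).trans hy
  have hy3 : 3 ≤ y := by omega
  have hexp : Real.exp 32 ≤ (y : ℝ) := by
    refine (Nat.le_ceil _).trans ?_
    exact_mod_cast (by omega : ⌈Real.exp 32⌉₊ ≤ y)
  have hlog : (32 : ℝ) ≤ Real.log y := by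
    rw [← Real.log_exp 32]
    exact Real.log_le_log (Real.exp_pos _) hexp
  have hL1 : (1 : ℝ) ≤ Real.log y ^ r := one_le_pow₀ (by linarith)
  have hpos : (0 : ℝ) < Real.log y ^ r := by linarith
  have hkey : 16 * (Real.log y ^ r + 1) ≤ Real.log y ^ (r + 1) := by
    rw [pow_succ]
    nlinarith
  apply h2 (Real.log y ^ r) y hpos hy3
  refine sim_mono ?_ (h y hy0)
  exact one_div_le_one_div_of_le (by linarith) hkey

end Pool.Agent.Helper32.XG
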